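import Pool.Agent.Work.MP_ef7f46_co.Interface

/-!
MP_ef7f46_co: elementary lemmas on contexts (section 0 of BLUEPRINT.md).
-/

set_option autoImplicit false
open Classical

namespace EpsNet
namespace Ctx

variable {P I : Type} [Fintype P] [Fintype I] {X : Ctx P I} {J σ Y : ℝ}

theorem walkers_sub (X : Ctx P I) : X.walkers ⊆ X.V := Finset.filter_subset _ _

theorem live_sub (X : Ctx P I) : X.live ⊆ X.E := Finset.filter_subset _ _

theorem mem_pts {i : I} {s : P} : s ∈ X.pts i ↔ i ∈ X.inc s := by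
  simp [Ctx.pts]

theorem mem_live {s : P} : s ∈ X.live ↔ s ∈ X.E ∧ X.t ≤ 2 * (X.inc s ∩ X.C).card := by
  simp [Ctx.live]

theorem mem_seen {v : I} {s : P} : s ∈ X.seen v ↔ s ∈ X.live ∧ v ∈ X.inc s := by
  simp [Ctx.seen]

theorem mem_walkers {v : I} : v ∈ X.walkers ↔ v ∈ X.V ∧ X.r ≤ 16 * (X.seen v).card := by
  simp [Ctx.walkers]

theorem seen_sub_pts (v : I) : X.seen v ⊆ X.pts v := by
  intro s hs
  rw [mem_seen] at hs
  exact mem_pts.2 hs.2

theorem walker_r_le {v : I} (hv : v ∈ X.walkers) : X.r ≤ 16 * (X.seen v).card :=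
  (mem_walkers.1 hv).2

theorem seen_card_pos (h : X.Hyp J σ Y) {v : I} (hv : v ∈ X.walkers) :
    1 ≤ (X.seen v).card := by
  have h1 := walker_r_le hv
  have h2 := h.r_pos
  omega

theorem seen_card_le (h : X.Hyp J σ Y) {v : I} (hv : v ∈ X.V) : (X.seen v).card ≤ X.r :=
  (Finset.card_le_card (seen_sub_pts v)).trans (h.pts_le v hv)

theorem seen_card_pos' (h : X.Hyp J σ Y) {v : I} (hv : v ∈ X.walkers) :
    (0 : ℝ) < (X.seen v).card := by
  exact_mod_cast seen_card_pos h hv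

theorem r_pos' (h : X.Hyp J σ Y) : (0 : ℝ) < X.r := by
  exact_mod_cast h.r_pos

theorem t_pos' (h : X.Hyp J σ Y) : (4 : ℝ) ≤ X.t := by
  have h1 := h.k_pos
  have h2 := h.t_ge
  have : 4 ≤ X.t := by omega
  exact_mod_cast this

theorem K_pos (h : X.Hyp J σ Y) : (4 : ℝ) ≤ X.K := (t_pos' h).trans h.K_ge

theorem β_pos (h : X.Hyp J σ Y) : (0 : ℝ) < X.β := by linarith [h.β_ge]

theorem β_one_le (h : X.Hyp J σ Y) : (1 : ℝ) ≤ X.β := by linarith [h.β_ge]

theorem one_le_βpow (h : X.Hyp J σ Y) (n : ℕ) : (1 : ℝ) ≤ X.β ^ n := one_le_pow₀ (β_one_le h)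

theorem tau_le (T : Finset I) (v : I) (s : P) : X.tau T v s ≤ X.k := min_le_right _ _

theorem βpow_tau_le (h : X.Hyp J σ Y) (T : Finset I) (v : I) (s : P) :
    X.β ^ X.tau T v s ≤ X.β ^ X.k := pow_le_pow_right₀ (β_one_le h) (tau_le T v s)

theorem wt_nonneg (h : X.Hyp J σ Y) (T : Finset I) (g : I → ℝ) (v : I) (s : P) :
    0 ≤ X.wt T g v s := by
  have := β_pos h
  unfold Ctx.wt
  positivity

theorem Z_ge_one (h : X.Hyp J σ Y) (T : Finset I) (g : I → ℝ) (v : I) : 1 ≤ X.Z T g v := by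
  unfold Ctx.Z
  have : 0 ≤ ∑ s ∈ X.seen v, X.wt T g v s := Finset.sum_nonneg (fun s _ => wt_nonneg h T g v s)
  linarith

theorem Z_pos (h : X.Hyp J σ Y) (T : Finset I) (g : I → ℝ) (v : I) : 0 < X.Z T g v := by
  linarith [Z_ge_one h T g v]

theorem prob_nonneg (h : X.Hyp J σ Y) (T : Finset I) (g : I → ℝ) (v : I) (s : P) :
    0 ≤ X.prob T g v s := div_nonneg (wt_nonneg h T g v s) (Z_pos h T g v).le

theorem prob_le_wt (h : X.Hyp J σ Y) (T : Finset I) (g : I → ℝ) (v : I) (s : P) :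
    X.prob T g v s ≤ X.wt T g v s := div_le_self (wt_nonneg h T g v s) (Z_ge_one h T g v)

theorem sum_prob_eq (h : X.Hyp J σ Y) (T : Finset I) (g : I → ℝ) (v : I) :
    ∑ s ∈ X.seen v, X.prob T g v s = 1 - 1 / X.Z T g v := by
  have hZ := Z_pos h T g v
  have e : ∑ s ∈ X.seen v, X.prob T g v s = (∑ s ∈ X.seen v, X.wt T g v s) / X.Z T g v := by
    simp only [Ctx.prob, Finset.sum_div]
  rw [e, eq_sub_iff_add_eq, ← add_div, add_comm]
  have : 1 + ∑ s ∈ X.seen v, X.wt T g v s = X.Z T g v := rfl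
  rw [this, div_self hZ.ne']

theorem sum_prob_le_one (h : X.Hyp J σ Y) (T : Finset I) (g : I → ℝ) (v : I) :
    ∑ s ∈ X.seen v, X.prob T g v s ≤ 1 := by
  rw [sum_prob_eq h]
  have := one_div_pos.2 (Z_pos h T g v)
  linarith

theorem pen_nonneg {g : I → ℝ} (hg : ∀ i, 0 ≤ g i) (v : I) (s : P) : 0 ≤ X.pen g v s :=
  Finset.sum_nonneg (fun i _ => hg i)

theorem le_pen {g : I → ℝ} (hg : ∀ i, 0 ≤ g i) {v i : I} {s : P} (hi : i ∈ X.inc s)
    (hne : i ≠ v) : g i ≤ X.pen g v s :=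
  Finset.single_le_sum (f := g) (fun i _ => hg i) (Finset.mem_erase.2 ⟨hne, hi⟩)

/-- general bound of the weights -/
theorem wt_le_exp (h : X.Hyp J σ Y) (T : Finset I) (g : I → ℝ) {v : I} (hv : v ∈ X.walkers)
    (s : P) : X.wt T g v s ≤ 16 * X.β ^ X.tau T v s * Real.exp (-(X.pen g v s)) / X.r := by
  have hr := r_pos' h
  have hd := seen_card_pos' h hv
  have hβ := β_pos h
  have h1 : (X.r : ℝ) ≤ 16 * (X.seen v).card := by exact_mod_cast walker_r_le hv
  have h2 : 0 ≤ X.β ^ X.tau T v s * Real.exp (-(X.pen g v s)) := by positivity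
  unfold Ctx.wt
  rw [div_le_div_iff₀ hd hr]
  nlinarith

theorem wt_le (h : X.Hyp J σ Y) (T : Finset I) {g : I → ℝ} (hg : ∀ i, 0 ≤ g i) {v : I}
    (hv : v ∈ X.walkers) (s : P) : X.wt T g v s ≤ 16 * X.β ^ X.tau T v s / X.r := by
  have hβ := β_pos h
  refine (wt_le_exp h T g hv s).trans ?_
  have h1 : Real.exp (-(X.pen g v s)) ≤ 1 := Real.exp_le_one_iff.2 (by linarith [pen_nonneg (X := X) hg v s])
  have hr := r_pos' h
  apply div_le_div_of_nonneg_right _ hr.le
  have : 0 ≤ 16 * X.β ^ X.tau T v s := by positivity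
  nlinarith

theorem prob_le (h : X.Hyp J σ Y) (T : Finset I) {g : I → ℝ} (hg : ∀ i, 0 ≤ g i) {v : I}
    (hv : v ∈ X.walkers) (s : P) : X.prob T g v s ≤ 16 * X.β ^ X.k / X.r := by
  refine (prob_le_wt h T g v s).trans ((wt_le h T hg hv s).trans ?_)
  have hr := r_pos' h
  apply div_le_div_of_nonneg_right _ hr.le
  have := βpow_tau_le h T v s
  linarith

/-- at most one common point -/
theorem uniq (h : X.Hyp J σ Y) {v i : I} (hv : v ∈ X.V) (hne : i ≠ v) {s s' : P}
    (h1 : v ∈ X.inc s) (h2 : i ∈ X.inc s) (h3 : v ∈ X.inc s') (h4 : i ∈ X.inc s') : s = s' :=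
  h.lin v i (Ne.symm hne) hv s s' h1 h2 h3 h4

theorem common_card_le_one (h : X.Hyp J σ Y) {v i : I} (hv : v ∈ X.V) (hne : i ≠ v) :
    ((X.seen v).filter (fun s => i ∈ X.inc s)).card ≤ 1 := by
  rw [Finset.card_le_one]
  intro a ha b hb
  rw [Finset.mem_filter, mem_seen] at ha hb
  exact uniq h hv hne ha.1.2 ha.2 hb.1.2 hb.2

theorem load_nonneg (h : X.Hyp J σ Y) (T : Finset I) (g : I → ℝ) (i : I) :
    0 ≤ X.load T g i :=
  Finset.sum_nonneg (fun _ _ => Finset.sum_nonneg (fun _ _ => prob_nonneg h _ _ _ _))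

theorem uload_nonneg (h : X.Hyp J σ Y) (T : Finset I) (g : I → ℝ) (i : I) :
    0 ≤ X.uload T g i :=
  Finset.sum_nonneg (fun _ _ => Finset.sum_nonneg (fun _ _ => prob_nonneg h _ _ _ _))

theorem uload_le_load (h : X.Hyp J σ Y) (T : Finset I) (g : I → ℝ) (i : I) :
    X.uload T g i ≤ X.load T g i := by
  refine Finset.sum_le_sum (fun v _ => ?_)
  refine Finset.sum_le_sum_of_subset_of_nonneg ?_ (fun _ _ _ => prob_nonneg h _ _ _ _)
  intro s hs
  rw [Finset.mem_filter] at hs ⊢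
  exact ⟨hs.1, hs.2.1⟩

theorem mass_le (h : X.Hyp J σ Y) (T : Finset I) (g : I → ℝ) : X.mass T g ≤ X.V.card := by
  calc X.mass T g ≤ ∑ v ∈ X.walkers, (1 : ℝ) :=
        Finset.sum_le_sum (fun v _ => sum_prob_le_one h T g v)
    _ = X.walkers.card := by simp
    _ ≤ X.V.card := by exact_mod_cast Finset.card_le_card X.walkers_sub

/-- exchange of sums, general form: `F v s` summed against the indicator of `i ∈ inc s`. -/
theorem exchange_general (W : Finset I) (S : I → Finset P) (F : I → P → ℝ) (f : I → ℝ) :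
    ∑ v ∈ W, ∑ s ∈ S v, F v s * ∑ i ∈ (X.inc s).erase v, f i =
      ∑ i, (∑ v ∈ W.erase i, ∑ s ∈ (S v).filter (fun s => i ∈ X.inc s), F v s) * f i := by
  have e1 : ∀ v s, F v s * ∑ i ∈ (X.inc s).erase v, f i =
      ∑ i, (if i ≠ v ∧ i ∈ X.inc s then F v s * f i else 0) := by
    intro v s
    rw [Finset.mul_sum, ← Finset.sum_filter]
    apply Finset.sum_congr _ (fun _ _ => rfl)
    ext i; simp
  have e2 : ∀ i, (∑ v ∈ W.erase i, ∑ s ∈ (S v).filter (fun s => i ∈ X.inc s), F v s) * f i =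
      ∑ v ∈ W, ∑ s ∈ S v, (if i ≠ v ∧ i ∈ X.inc s then F v s * f i else 0) := by
    intro i
    rw [Finset.sum_mul]
    have : ∀ v, ∑ s ∈ S v, (if i ≠ v ∧ i ∈ X.inc s then F v s * f i else 0) =
        if i ≠ v then (∑ s ∈ (S v).filter (fun s => i ∈ X.inc s), F v s) * f i else 0 := by
      intro v
      by_cases hv : i ≠ v
      · simp only [hv, ne_eq, not_false_eq_true, true_and, if_true]
        rw [Finset.sum_mul, Finset.sum_filter]
      · simp [hv]
    rw [Finset.sum_congr rfl (fun v _ => this v), ← Finset.sum_filter]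
    apply Finset.sum_congr _ (fun _ _ => rfl)
    ext v
    simp only [Finset.mem_erase, Finset.mem_filter, ne_eq]
    constructor
    · rintro ⟨h1, h2⟩; exact ⟨h2, fun h => h1 h.symm⟩
    · rintro ⟨h1, h2⟩; exact ⟨fun h => h2 h.symm, h1⟩
  rw [Finset.sum_congr rfl (fun i _ => e2 i), Finset.sum_comm]
  apply Finset.sum_congr rfl
  intro v _
  rw [Finset.sum_comm]
  apply Finset.sum_congr rfl
  intro s _
  exact e1 v s

/-- (B4) exchange of sums -/
theorem exchange (T : Finset I) (g : I → ℝ) (f : I → ℝ) :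
    ∑ v ∈ X.walkers, ∑ s ∈ X.seen v, X.prob T g v s * ∑ i ∈ (X.inc s).erase v, f i =
      ∑ i, X.load T g i * f i :=
  exchange_general X.walkers X.seen (X.prob T g) f

/-- (B7) double counting of incidences -/
theorem double_count (f : I → ℝ) :
    ∑ s : P, ∑ i ∈ X.inc s, f i = ∑ i, ((X.pts i).card : ℝ) * f i := by
  have e1 : ∀ s : P, ∑ i ∈ X.inc s, f i = ∑ i, (if i ∈ X.inc s then f i else 0) := by
    intro s
    rw [← Finset.sum_filter]
    apply Finset.sum_congr _ (fun _ _ => rfl)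
    ext i; simp
  rw [Finset.sum_congr rfl (fun s _ => e1 s), Finset.sum_comm]
  apply Finset.sum_congr rfl
  intro i _
  rw [← Finset.sum_filter, Finset.sum_const, nsmul_eq_mul]
  rfl

/-- the sum over all main lines through the points of a set `S` is `t * |S|` -/
theorem main_count (h : X.Hyp J σ Y) (S : Finset P) :
    ∑ v ∈ X.V, (S.filter (fun s => v ∈ X.inc s)).card = X.t * S.card := by
  have : ∀ s ∈ S, (X.V.filter (fun v => v ∈ X.inc s)).card = X.t := by
    intro s _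
    rw [← h.main_card s]
    congr 1
    ext v; simp [and_comm]
  have e : ∑ v ∈ X.V, (S.filter (fun s => v ∈ X.inc s)).card =
      ∑ s ∈ S, (X.V.filter (fun v => v ∈ X.inc s)).card :=
    Finset.sum_card_bipartiteAbove_eq_sum_card_bipartiteBelow (fun v s => v ∈ X.inc s)
  rw [e, Finset.sum_congr rfl this, Finset.sum_const, smul_eq_mul, mul_comm]

end Ctx
end EpsNet
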