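import Mathlib

/-!
MP_ef7f46_co (epsilon-nets for points and lines), project of helper84.
Definitions for the abstract container argument.  See BLUEPRINT.md.
-/

set_option autoImplicit false
open Classical

namespace EpsNet

/-- Context: finite incidence structure (points `P`, lines `I`, `inc s` = lines through the
point `s`, `V` = main lines), parameters, the set `E` of points we care about and the current
container `C ⊆ V`. -/
structure Ctx (P I : Type) where
  inc : P → Finset I
  V : Finset I
  t : ℕ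
  r : ℕ
  k : ℕ
  β : ℝ
  K : ℝ
  E : Finset P
  C : Finset I

namespace Ctx

variable {P I : Type} [Fintype P] [Fintype I] (X : Ctx P I)

/-- points on the line `i` -/
noncomputable def pts (i : I) : Finset P := Finset.univ.filter (fun s => i ∈ X.inc s)

/-- live points: points of `E` at least half of whose main lines are in `C` -/
noncomputable def live : Finset P := X.E.filter (fun s => X.t ≤ 2 * (X.inc s ∩ X.C).card)

/-- live points on the line `v` -/
noncomputable def seen (v : I) : Finset P := X.live.filter (fun s => v ∈ X.inc s)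

/-- walkers: main lines with at least `r/16` live points -/
noncomputable def walkers : Finset I := X.V.filter (fun v => X.r ≤ 16 * (X.seen v).card)

/-- truncated richness of `s` in `T`, not counting `v` -/
noncomputable def tau (T : Finset I) (v : I) (s : P) : ℕ := min ((X.inc s ∩ T).erase v).card X.k

/-- total penalty of `s` for the walker `v` -/
noncomputable def pen (g : I → ℝ) (v : I) (s : P) : ℝ := ∑ i ∈ (X.inc s).erase v, g i

/-- unnormalised weight of `s` for the walker `v` -/
noncomputable def wt (T : Finset I) (g : I → ℝ) (v : I) (s : P) : ℝ :=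
  X.β ^ X.tau T v s * Real.exp (-(X.pen g v s)) / ((X.seen v).card : ℝ)

/-- partition function of the walker `v` -/
noncomputable def Z (T : Finset I) (g : I → ℝ) (v : I) : ℝ := 1 + ∑ s ∈ X.seen v, X.wt T g v s

/-- probability that the walker `v` goes to `s` -/
noncomputable def prob (T : Finset I) (g : I → ℝ) (v : I) (s : P) : ℝ := X.wt T g v s / X.Z T g v

/-- load of the line `i`: total probability of passing through `i` -/
noncomputable def load (T : Finset I) (g : I → ℝ) (i : I) : ℝ :=
  ∑ v ∈ X.walkers.erase i, ∑ s ∈ (X.seen v).filter (fun s => i ∈ X.inc s), X.prob T g v s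

/-- load of `u` through unsaturated points -/
noncomputable def uload (T : Finset I) (g : I → ℝ) (u : I) : ℝ :=
  ∑ v ∈ X.walkers.erase u,
    ∑ s ∈ (X.seen v).filter (fun s => u ∈ X.inc s ∧ ((X.inc s ∩ T).erase v).card < X.k),
      X.prob T g v s

/-- the potential -/
noncomputable def L (T : Finset I) (g : I → ℝ) : ℝ :=
  ∑ v ∈ X.walkers, Real.log (X.Z T g v) + X.K / 2 * ∑ i, g i ^ 2

/-- total mass of the walkers -/
noncomputable def mass (T : Finset I) (g : I → ℝ) : ℝ :=
  ∑ v ∈ X.walkers, ∑ s ∈ X.seen v, X.prob T g v s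

/-- mass on saturated (rich) points -/
noncomputable def rmass (T : Finset I) (g : I → ℝ) : ℝ :=
  ∑ v ∈ X.walkers, ∑ s ∈ (X.seen v).filter (fun s => X.k ≤ ((X.inc s ∩ T).erase v).card),
    X.prob T g v s

/-- the set of candidates -/
noncomputable def H (T : Finset I) (g : I → ℝ) : Finset I :=
  (X.C \ T).filter (fun u => (X.t : ℝ) / 1024 ≤ X.uload T g u)

/-- stationarity off `T` -/
def Stat (T : Finset I) (g : I → ℝ) : Prop := ∀ i, i ∉ T → X.K * g i = X.load T g i

/-- All hypotheses on a context.  `J` bounds the number of lines through a point, `σ * r` the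
sum of the sizes of the lines through a point, `Y` is the a priori bound of the penalties. -/
structure Hyp (J σ Y : ℝ) : Prop where
  main_card : ∀ s, (X.inc s ∩ X.V).card = X.t
  lin : ∀ i j, i ≠ j → i ∈ X.V → ∀ s s', i ∈ X.inc s → j ∈ X.inc s → i ∈ X.inc s' →
    j ∈ X.inc s' → s = s'
  pts_le : ∀ v ∈ X.V, (X.pts v).card ≤ X.r
  sig : ∀ s, ∑ i ∈ X.inc s, ((X.pts i).card : ℝ) ≤ σ * X.r
  inc_le : ∀ s, ((X.inc s).card : ℝ) ≤ J
  many : X.r * X.V.card ≤ 2 * X.t * Fintype.card P
  half : Fintype.card P ≤ 2 * X.E.card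
  C_sub : X.C ⊆ X.V
  C_big : 15 * X.V.card ≤ 16 * X.C.card
  r_pos : 1 ≤ X.r
  V_pos : 1 ≤ X.V.card
  k_pos : 1 ≤ X.k
  t_ge : 4 * X.k ≤ X.t
  J_pos : 1 ≤ J
  σ_pos : 1 ≤ σ
  β_ge : 2 ≤ X.β
  K_ge : (X.t : ℝ) ≤ X.K
  K_sig : 1024 * X.t * σ ≤ X.K
  Y_pos : 1 ≤ Y
  Y_ge : Real.log (16 * σ * X.t * X.β ^ X.k) ≤ Y
  r_ge : 128 * X.β ^ (X.k + 1) * Y * J ≤ X.r
  β_big : 4096 * X.K * Y ^ 2 ≤ (X.β - 1) * X.t

end Ctx

end EpsNet
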