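import Pool.Agent.Work.MP_ef7f46_co.Defs

/-!
MP_ef7f46_co: exact statements of all blocks.  Proofs in BLUEPRINT.md (same letters).
Prove `theorem stmt_X : Stmt_X` in `Pool/Agent/Work/MP_ef7f46_co_<seat>/X.lean`,
namespace `EpsNet`.
-/

set_option autoImplicit false
open Classical

namespace EpsNet

open Ctx

/-! ### Abstract part -/

/-- S1: existence of a stationary extension of given values on `T`. -/
def Stmt_S1 : Prop := ∀ (P I : Type) [Fintype P] [Fintype I] (X : Ctx P I) (J σ Y : ℝ),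
  X.Hyp J σ Y → ∀ (T : Finset I) (g0 : I → ℝ),
    ∃ g : I → ℝ, (∀ i ∈ T, g i = g0 i) ∧ X.Stat T g

/-- S2: tangent inequality for the potential. -/
def Stmt_S2 : Prop := ∀ (P I : Type) [Fintype P] [Fintype I] (X : Ctx P I) (J σ Y : ℝ),
  X.Hyp J σ Y → ∀ (T : Finset I) (g g' : I → ℝ),
    X.L T g - ∑ i, X.load T g i * (g' i - g i) + X.K / 2 * ∑ i, (g' i ^ 2 - g i ^ 2) ≤ X.L T g'

/-- S3: first order gain when a line is added to `T`. -/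
def Stmt_S3 : Prop := ∀ (P I : Type) [Fintype P] [Fintype I] (X : Ctx P I) (J σ Y : ℝ),
  X.Hyp J σ Y → ∀ (T : Finset I) (g : I → ℝ) (u : I), (∀ i, 0 ≤ g i) → u ∉ T →
    X.L T g + (X.β - 1) / 2 * X.uload T g u ≤ X.L (insert u T) g

/-- S4: change of the loads (except that of `u`) when a main line `u` is added to `T`. -/
def Stmt_S4 : Prop := ∀ (P I : Type) [Fintype P] [Fintype I] (X : Ctx P I) (J σ Y : ℝ),
  X.Hyp J σ Y → ∀ (T : Finset I) (g : I → ℝ) (u : I), (∀ i, 0 ≤ g i) → u ∉ T → u ∈ X.V →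
    ∑ i ∈ Finset.univ.erase u, (X.load (insert u T) g i - X.load T g i) ^ 2 ≤
      2 * (X.β - 1) ^ 2 * (16 * X.β ^ X.k / X.r) * (X.t + X.uload T g u) * J * X.uload T g u

/-- S5: gain after re-optimisation (from S2, S3, S4). -/
def Stmt_S5 : Prop := ∀ (P I : Type) [Fintype P] [Fintype I] (X : Ctx P I) (J σ Y : ℝ),
  X.Hyp J σ Y → ∀ (T : Finset I) (g g' : I → ℝ) (u : I), (∀ i, 0 ≤ g i ∧ g i ≤ Y) →
    X.Stat T g → u ∈ X.V → u ∉ T → (∀ i ∈ insert u T, g' i = g i) →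
    X.L T g + (X.β - 1) / 4 * X.uload T g u ≤ X.L (insert u T) g'

/-- S6: a priori bounds. -/
def Stmt_S6 : Prop := ∀ (P I : Type) [Fintype P] [Fintype I] (X : Ctx P I) (J σ Y : ℝ),
  X.Hyp J σ Y → ∀ (T : Finset I) (g : I → ℝ), (∀ i ∈ T, 0 ≤ g i ∧ g i ≤ Y) → X.Stat T g →
    ∀ i, 0 ≤ g i ∧ g i ≤ Y

/-- S7: there are many walkers. -/
def Stmt_S7 : Prop := ∀ (P I : Type) [Fintype P] [Fintype I] (X : Ctx P I) (J σ Y : ℝ),
  X.Hyp J σ Y → X.V.card ≤ 16 * X.walkers.card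

/-- S8: the total mass is large (uses S7). -/
def Stmt_S8 : Prop := ∀ (P I : Type) [Fintype P] [Fintype I] (X : Ctx P I) (J σ Y : ℝ),
  X.Hyp J σ Y → ∀ (T : Finset I) (g : I → ℝ), T ⊆ X.V → (∀ i, 0 ≤ g i ∧ g i ≤ Y) →
    X.Stat T g → 1024 * X.t * Y * (T.card : ℝ) ≤ X.V.card → (X.V.card : ℝ) / 64 ≤ X.mass T g

/-- S9: if little mass is on rich points then there are many candidates. -/
def Stmt_S9 : Prop := ∀ (P I : Type) [Fintype P] [Fintype I] (X : Ctx P I) (J σ Y : ℝ),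
  X.Hyp J σ Y → ∀ (T : Finset I) (g : I → ℝ), (∀ i, 0 ≤ g i ∧ g i ≤ Y) → X.Stat T g →
    (X.V.card : ℝ) / 64 ≤ X.mass T g → X.rmass T g < (X.V.card : ℝ) / 128 →
    X.t * (X.V.card : ℝ) / (1024 * X.K * Y) ≤ ((X.H T g).card : ℝ)

/-- S10: if much mass is on rich points then few lines outside `A` and few points do not
cover all rich points. -/
def Stmt_S10 : Prop := ∀ (P I : Type) [Fintype P] [Fintype I] (X : Ctx P I) (J σ Y : ℝ),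
  X.Hyp J σ Y → ∀ (T : Finset I) (g : I → ℝ), (∀ i, 0 ≤ g i ∧ g i ≤ Y) → X.Stat T g →
    (X.V.card : ℝ) / 128 ≤ X.rmass T g → ∀ (A W : Finset I) (B : Finset P), T ⊆ A →
    Disjoint W A →
    (W.card : ℝ) * (1 + X.K * Y) + 16 * B.card * X.t * X.β ^ X.k / X.r ≤ X.V.card / 256 →
    ∃ s ∈ X.E, s ∉ B ∧ Disjoint (X.inc s) W ∧ X.k ≤ (X.inc s ∩ A).card

/-- S11: bounds of the potential (uses S2). -/
def Stmt_S11 : Prop := ∀ (P I : Type) [Fintype P] [Fintype I] (X : Ctx P I) (J σ Y : ℝ),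
  X.Hyp J σ Y → ∀ (T : Finset I) (g : I → ℝ), (∀ i, 0 ≤ g i ∧ g i ≤ Y) → X.Stat T g →
    0 ≤ X.L T g ∧
    X.L T g ≤ X.V.card * ((X.k + 1) * Real.log X.β) + X.K / 2 * (T.card * Y ^ 2)

/-- AT: the container theorem (from S1, S5, S6, S8, S9, S10, S11). -/
def Stmt_AT : Prop := ∀ (P I : Type) [Fintype P] [Fintype I] (X : Ctx P I) (J σ Y : ℝ) (M : ℕ),
  X.Hyp J σ Y → 8192 * (X.k + 1) * Real.log X.β * 1024 * Y ≤ X.β - 1 →
  (8192 * X.V.card * (X.k + 1) * Real.log X.β / ((X.β - 1) * X.t) + 1) *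
    (64 * X.K * Y / X.t + 2) ≤ M →
  ∃ F : Finset (Finset I), F.card ≤ (X.V.card + 2) ^ M ∧
    (∀ C ∈ F, C ⊆ X.V ∧ 16 * C.card ≤ 15 * X.V.card) ∧
    ∀ A ⊆ X.V, (∃ C ∈ F, A ⊆ C) ∨
      ∀ (W : Finset I) (B : Finset P), Disjoint W A →
        (W.card : ℝ) * (1 + X.K * Y) + 16 * B.card * X.t * X.β ^ X.k / X.r ≤ X.V.card / 256 →
        ∃ s ∈ X.E, s ∉ B ∧ Disjoint (X.inc s) W ∧ X.k ≤ (X.inc s ∩ A).card

/-! ### Probabilistic part -/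

/-- PB: a random set avoids all containers. -/
def Stmt_PB : Prop := ∀ (I : Type) [Fintype I] (V : Finset I) (D x M : ℕ)
  (fam : Finset I → Finset (Finset I)), 2 ≤ D → 200 * D * x ≤ V.card → 40 * D ≤ V.card →
  (M : ℝ) * Real.log (V.card + 2) ≤ V.card / (200 * D) →
  (∀ U ⊆ V, U.card ≤ x → (fam U).card ≤ (V.card + 2) ^ M ∧
    ∀ C ∈ fam U, C ⊆ V ∧ 16 * C.card ≤ 15 * V.card) →
  ∃ A ⊆ V, D * A.card ≤ 2 * V.card ∧
    ∀ U ⊆ A, U.card ≤ x → ∀ C ∈ fam U, ¬ (A \ U ⊆ C)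

/-! ### Geometric part -/

abbrev Plane := EuclideanSpace ℝ (Fin 2)

/-- the lattice points `(w₁, w₂, y₁, y₂)` -/
abbrev Pt (t s : ℕ) := Fin s × Fin s × Fin (3 * t * s) × Fin (3 * t * s)

/-- the big base -/
def base (t s : ℕ) : ℕ := 100 * t * s ^ 2

/-- the embedding `(w₁ + B w₂, y₁ + B y₂)` -/
noncomputable def emb (t s : ℕ) (x : Pt t s) : Plane :=
  !₂[(x.1 : ℝ) + (base t s : ℝ) * x.2.1, (x.2.2.1 : ℝ) + (base t s : ℝ) * x.2.2.2]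

/-- the determinant of the differences -/
def det (t s : ℕ) (x y : Pt t s) : ℤ :=
  ((y.1 : ℤ) - x.1) * ((y.2.2.2 : ℤ) - x.2.2.2) - ((y.2.1 : ℤ) - x.2.1) * ((y.2.2.1 : ℤ) - x.2.2.1)

/-- the main line `Y = a₁ + B a₂ - j X` -/
noncomputable def mline (t s : ℕ) (j : Fin t) (a : Fin (4 * t * s) × Fin (4 * t * s)) :
    AffineSubspace ℝ Plane :=
  affineSpan ℝ {!₂[(0 : ℝ), (a.1 : ℝ) + (base t s : ℝ) * a.2],
    !₂[(1 : ℝ), (a.1 : ℝ) + (base t s : ℝ) * a.2 - (j : ℕ)]}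

/-- G0: `emb` is injective. -/
def Stmt_G0 : Prop := ∀ t s : ℕ, 1 ≤ t → 1 ≤ s → Function.Injective (emb t s)

/-- G1: a line containing two points with nonzero determinant contains at most `s` points. -/
def Stmt_G1 : Prop := ∀ t s : ℕ, 1 ≤ t → 1 ≤ s → ∀ (p q : Plane), p ≠ q → ∀ x y : Pt t s,
  emb t s x ∈ affineSpan ℝ {p, q} → emb t s y ∈ affineSpan ℝ {p, q} → det t s x y ≠ 0 →
  (Finset.univ.filter (fun z : Pt t s => emb t s z ∈ affineSpan ℝ {p, q})).card ≤ s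

/-- G2: few points have determinant zero with a given point. -/
def Stmt_G2 : Prop := ∀ t s : ℕ, 1 ≤ t → 1 ≤ s → ∀ x : Pt t s,
  ((Finset.univ.filter (fun y : Pt t s => y ≠ x ∧ det t s x y = 0)).card : ℝ) ≤
    252 * t ^ 2 * (1 + Real.log s) * s ^ 2

/-- G3: the main lines. -/
def Stmt_G3 : Prop := ∀ t s : ℕ, 1 ≤ t → 1 ≤ s →
  Function.Injective (fun ja : Fin t × (Fin (4 * t * s) × Fin (4 * t * s)) =>
    mline t s ja.1 ja.2) ∧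
  (∀ x : Pt t s, ∀ j : Fin t, ∃! a, emb t s x ∈ mline t s j a) ∧
  (∀ j a, (Finset.univ.filter (fun x : Pt t s => emb t s x ∈ mline t s j a)).card ≤ s ^ 2)

/-- Geo: everything about the planar configuration (from G0, G1, G2, G3). -/
def Stmt_Geo : Prop := ∀ t s : ℕ, 1 ≤ t → 1 ≤ s →
  ∃ (e : Pt t s → Plane) (I V : Finset (AffineSubspace ℝ Plane)),
    Function.Injective e ∧ V ⊆ I ∧ V.card = t * (4 * t * s) ^ 2 ∧
    (∀ l ∈ I, ∃ p q, p ≠ q ∧ l = affineSpan ℝ {p, q}) ∧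
    (∀ x, (V.filter (fun l => e x ∈ l)).card = t) ∧
    (∀ l ∈ I, ∀ l' ∈ I, l ≠ l' → ∀ x y, e x ∈ l → e x ∈ l' → e y ∈ l → e y ∈ l' → x = y) ∧
    (∀ v ∈ V, (Finset.univ.filter (fun x => e x ∈ v)).card ≤ s ^ 2) ∧
    (∀ x, ∑ l ∈ I.filter (fun l => e x ∈ l),
      ((Finset.univ.filter (fun y => e y ∈ l)).card : ℝ) ≤
        600 * t ^ 2 * (1 + Real.log s) * s ^ 2) ∧
    (∀ x, ((I.filter (fun l => e x ∈ l)).card : ℝ) ≤ 600 * t ^ 2 * (1 + Real.log s) * s) ∧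
    (∀ p q : Plane, p ≠ q → affineSpan ℝ {p, q} ∉ I →
      (Finset.univ.filter (fun x => e x ∈ affineSpan ℝ {p, q})).card ≤ s)

/-! ### Final assembly -/

/-- the lines spanned by a finite set (as in the frozen statement) -/
noncomputable def spanned (S : Finset Plane) : Finset (AffineSubspace ℝ Plane) :=
  S.offDiag.image (fun x : Plane × Plane => affineSpan ℝ ({x.1, x.2} : Set Plane))

/-- `N` is an `ε`-net for `(S, w)` -/
def IsNet (ε : ℝ) (S : Finset Plane) (w : AffineSubspace ℝ Plane → ℝ)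
    (N : Finset (AffineSubspace ℝ Plane)) : Prop :=
  N ⊆ spanned S ∧ ∀ p ∈ S, ε * (∑ l ∈ spanned S, w l) ≤
    (∑ l ∈ (spanned S).filter (fun l => p ∈ l), w l) → ∃ l ∈ N, p ∈ l

/-- number of main lines for `t = 4 k` -/
def NN (k s : ℕ) : ℕ := 4 * k * (4 * (4 * k) * s) ^ 2

/-- admissible parameters, `t = 4 k`, `σ = 600 t² (1 + log s)`, `J = σ s`, `r = s²` -/
structure Params (k s D x M : ℕ) (β K Y : ℝ) : Prop where
  k1 : 1 ≤ k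
  s1 : 1 ≤ s
  β2 : 2 ≤ β
  K_ge : (4 * k : ℝ) ≤ K
  K_sig : 1024 * (4 * k) * (600 * (4 * k) ^ 2 * (1 + Real.log s)) ≤ K
  Y1 : 1 ≤ Y
  Y_ge : Real.log (16 * (600 * (4 * k) ^ 2 * (1 + Real.log s)) * (4 * k) * β ^ k) ≤ Y
  r_ge : 128 * β ^ (k + 1) * Y * (600 * (4 * k) ^ 2 * (1 + Real.log s) * s) ≤ (s : ℝ) ^ 2
  β_big : 4096 * K * Y ^ 2 ≤ (β - 1) * (4 * k)
  β_big2 : 8192 * (k + 1) * Real.log β * 1024 * Y ≤ β - 1
  M_ge : (8192 * (NN k s : ℝ) * (k + 1) * Real.log β / ((β - 1) * (4 * k)) + 1) *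
    (64 * K * Y / (4 * k) + 2) ≤ M
  X_ok : (x : ℝ) * (1 + K * Y) + 16 * (x * s) * (4 * k) * β ^ k / (s : ℝ) ^ 2 ≤ (NN k s : ℝ) / 256
  x_le' : x ≤ 72 * k ^ 2 * s ^ 2
  D2 : 2 ≤ D
  x_le : 200 * D * x ≤ NN k s
  N_ge : 40 * D ≤ NN k s
  M_le : (M : ℝ) * Real.log (NN k s + 2) ≤ NN k s / (200 * D)

/-- Main: the configuration for admissible parameters (from AT, PB, Geo). -/
def Stmt_Main : Prop := ∀ (k s D x M : ℕ) (β K Y : ℝ), Params k s D x M β K Y →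
  ∃ (S : Finset Plane) (w : AffineSubspace ℝ Plane → ℝ), 2 ≤ S.card ∧
    (∀ l ∈ spanned S, 0 < w l) ∧
    ∀ ε : ℝ, 0 < ε → ε * (3 * NN k s) ≤ k * D → ∀ N, IsNet ε S w N → x < N.card

/-- Asym: choice of the parameters. -/
def Stmt_Asym : Prop := ∃ c : ℝ, 0 < c ∧ ∃ ε₀ : ℝ, 0 < ε₀ ∧ ε₀ < 1 / 16 ∧
  ∀ ε : ℝ, 0 < ε → ε < ε₀ → ∃ (k s D x M : ℕ) (β K Y : ℝ), Params k s D x M β K Y ∧
    ε * (3 * NN k s) ≤ k * D ∧
    c * (1 / ε) * Real.log (1 / ε) / Real.log (Real.log (1 / ε)) ≤ x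

/-- Final theorem. -/
def Stmt_Final : Prop := ∃ c : ℝ, 0 < c ∧ ∃ ε₀ : ℝ, 0 < ε₀ ∧ ε₀ < 1 / 16 ∧
  ∀ ε : ℝ, 0 < ε → ε < ε₀ →
    ∃ (S : Finset Plane) (w : AffineSubspace ℝ Plane → ℝ), 2 ≤ S.card ∧
      (∀ l ∈ spanned S, 0 < w l) ∧
      ∀ N, IsNet ε S w N →
        c * (1 / ε) * Real.log (1 / ε) / Real.log (Real.log (1 / ε)) < N.card

theorem final (hM : Stmt_Main) (hA : Stmt_Asym) : Stmt_Final := by
  obtain ⟨c, hc, ε₀, h0, h1, h⟩ := hA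
  refine ⟨c, hc, ε₀, h0, h1, fun ε he he' => ?_⟩
  obtain ⟨k, s, D, x, M, β, K, Y, hP, hε, hx⟩ := h ε he he'
  obtain ⟨S, w, hS, hw, hN⟩ := hM k s D x M β K Y hP
  refine ⟨S, w, hS, hw, fun N hNet => ?_⟩
  have := hN ε he hε N hNet
  exact lt_of_le_of_lt hx (by exact_mod_cast this)

end EpsNet
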